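import Pool.Agent.H513R2.RD.Defs
import Pool.Agent.H506R2.RC.TRANS

/-! Counting even permutations with prescribed cycles. -/

namespace RD
open Finset RC14

theorem cyc_card {r n : ℕ} (h : r + 2 ≤ n) (κ κ' : Tup r n) :
    Nat.card {g : Alt n // mv (g : Equiv.Perm (Fin n)) κ = κ'} * Fintype.card (Tup r n) =
      Fintype.card (Alt n) := by
  classical
  have h1 := TRANS_card h κ' κ
  rw [← h1, Nat.card_eq_fintype_card]
  congr 1
  apply Fintype.card_congr
  apply Equiv.subtypeEquivRight
  intro g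
  constructor
  · intro hg
    rw [← hg, ← mv_mul]
    simp
  · intro hg
    rw [← hg, ← mv_mul]
    simp

/-- an injective cyclic sequence -/
theorem cyc_iter {n m : ℕ} (g : Equiv.Perm (Fin n)) (z : Fin (m + 1) → Fin n)
    (hz : ∀ i, g (z i) = z (i + 1)) (j : ℕ) : (g ^ j) (z 0) = z (Fin.ofNat (m + 1) j) := by
  induction j with
  | zero => rfl
  | succ j ih =>
    rw [pow_succ', Equiv.Perm.mul_apply, ih, hz]
    congr 1
    apply Fin.ext
    rw [Fin.val_add]
    simp [Nat.add_mod]

theorem cyc_period {n m : ℕ} (g : Equiv.Perm (Fin n)) (z : Fin (m + 1) → Fin n)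
    (hinj : Function.Injective z) (hz : ∀ i, g (z i) = z (i + 1)) :
    Function.minimalPeriod g (z 0) = m + 1 := by
  have h1 : ∀ j : ℕ, Function.IsPeriodicPt g j (z 0) ↔ (m + 1) ∣ j := by
    intro j
    have h2 : Function.IsPeriodicPt g j (z 0) ↔ (g ^ j) (z 0) = z 0 := by
      unfold Function.IsPeriodicPt Function.IsFixedPt
      rw [← Equiv.Perm.coe_pow]
    rw [h2, cyc_iter g z hz, hinj.eq_iff]
    rw [Fin.ext_iff, Nat.dvd_iff_mod_eq_zero]
    rfl
  apply Nat.dvd_antisymm
  · exact ((h1 (m + 1)).2 dvd_rfl).minimalPeriod_dvd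
  · exact (h1 _).1 (Function.isPeriodicPt_minimalPeriod _ _)

/-- the orbit of a point of period `m + 1` -/
theorem cyc_orbit {n m : ℕ} (g : Equiv.Perm (Fin n)) (a : Fin n)
    (h : Function.minimalPeriod g a = m + 1) :
    Function.Injective (fun i : Fin (m + 1) => (g ^ (i : ℕ)) a) ∧
      ∀ i : Fin (m + 1), g ((g ^ (i : ℕ)) a) = (g ^ ((i + 1 : Fin (m + 1)) : ℕ)) a := by
  constructor
  · intro i j hij
    have h1 : Set.InjOn (fun n => g^[n] a) (Set.Iio (Function.minimalPeriod g a)) :=
      Function.iterate_injOn_Iio_minimalPeriod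
    have h2 := h1 (x₁ := (i : ℕ)) (x₂ := (j : ℕ)) (by rw [h]; exact i.2) (by rw [h]; exact j.2) (by
      beta_reduce at hij ⊢
      rw [Equiv.Perm.coe_pow, Equiv.Perm.coe_pow] at hij
      exact hij)
    exact Fin.ext h2
  · intro i
    have hp : (g ^ (m + 1)) a = a := by
      have := Function.isPeriodicPt_minimalPeriod g a
      rw [h] at this
      unfold Function.IsPeriodicPt Function.IsFixedPt at this
      rwa [← Equiv.Perm.coe_pow] at this
    rw [← Equiv.Perm.mul_apply, ← pow_succ']
    by_cases hi : i = Fin.last m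
    · rw [hi, Fin.last_add_one, Fin.val_last, Fin.val_zero, pow_zero, hp]
      rfl
    · rw [Fin.val_add_one, if_neg hi]

end RD
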